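import Pool.Agent.Helper2.PD.Faces
import Pool.Agent.Helper52.PD.CutS

/-!
# EV3: corners of faces

The crossings are the passages `p` with `lf p = true`. The face in front of the crossing is `Rf p = Lf (op p)`, the face behind it is
`Lf (pre p) = Rf (pre (op p))`, `pre = nxt.symm`. `kf f` is the number of crossings which are behind the face `f`, it is also the number of crossings
which are in front of it.
-/

set_option autoImplicit false

namespace Pool.Agent.Helper2.PD

open Pool.Agent.Helper85.Exp

variable {P : Type}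

/-- The number of crossings with the face `f` in front of them. -/
noncomputable def kf (G : Sh P) (f : Face G) : ℕ := Nat.card {p : P // G.lf p = true ∧ Rf G p = f}

/-- The previous edge of the face. -/
def eaf (G : Sh P) (d : P × Bool) : P × Bool :=
  if d.2 then (if G.lf d.1 then (G.nxt.symm (G.op d.1), true) else (G.op d.1, false))
  else (if G.lf (G.nxt d.1) then (G.op (G.nxt d.1), false) else (G.nxt.symm (G.op (G.nxt d.1)), true))

section

variable {G : Sh P}

theorem lf_op' (ho : ∀ i, G.op i ≠ i) (i : P) : G.lf (G.op i) = !G.lf i := G.lf_op i (ho i)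

theorem eaf_face (ho : ∀ i, G.op i ≠ i) (d : P × Bool) : eaf G (face G d) = d := by
  obtain ⟨i, b⟩ := d
  cases b with
  | true =>
    cases h : G.lf (G.nxt i) with
    | true => simp [face, eaf, h, lf_op' ho, G.op_op]
    | false => simp [face, eaf, h, lf_op' ho, G.op_op]
  | false =>
    cases h : G.lf i with
    | true => simp [face, eaf, h, lf_op' ho, G.op_op]
    | false => simp [face, eaf, h, lf_op' ho, G.op_op]

theorem face_eaf (ho : ∀ i, G.op i ≠ i) (d : P × Bool) : face G (eaf G d) = d := by
  obtain ⟨i, b⟩ := d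
  cases b with
  | true =>
    cases h : G.lf i with
    | true => simp [face, eaf, h, lf_op' ho, G.op_op]
    | false => simp [face, eaf, h, lf_op' ho, G.op_op]
  | false =>
    cases h : G.lf (G.nxt i) with
    | true => simp [face, eaf, h, lf_op' ho, G.op_op]
    | false => simp [face, eaf, h, lf_op' ho, G.op_op]

/-- The permutation of the sides of the edges whose cycles are the faces. -/
def facePerm (G : Sh P) (ho : ∀ i, G.op i ≠ i) : Equiv.Perm (P × Bool) where
  toFun := face G
  invFun := eaf G
  left_inv := eaf_face ho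
  right_inv := face_eaf ho

end

section

variable [Fintype P] {G : Sh P}

open Classical in
theorem kf_eq_sum (f : Face G) : (kf G f : ℤ) = ∑ p : P, if G.lf p = true then (if Rf G p = f then (1 : ℤ) else 0) else 0 := by
  rw [kf, Nat.card_eq_fintype_card, Fintype.card_subtype, Finset.card_filter]
  push_cast
  refine Finset.sum_congr rfl fun p _ => ?_
  by_cases h1 : G.lf p = true
  · by_cases h2 : Rf G p = f
    · simp [h1, h2]
    · simp [h1, h2]
  · simp [h1]

open Classical in
theorem face_sum (ho : ∀ i, G.op i ≠ i) (f : Face G) :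
    (∑ p : P, if G.lf p = true then (if Rf G p = f then (1 : ℤ) else 0) else 0) =
      ∑ p : P, if G.lf (G.nxt p) = true then (if Lf G p = f then (1 : ℤ) else 0) else 0 := by
  set g : P × Bool → ℤ := fun d => if (Quot.mk _ d : Face G) = f then (if d.2 = true then 1 else 0) else 0 with hg
  have h1 : ∑ d, g (face G d) = ∑ d, g d := Equiv.sum_comp (facePerm G ho) g
  rw [Fintype.sum_prod_type, Fintype.sum_prod_type] at h1
  simp only [Fintype.sum_bool] at h1
  have e1 : ∀ i : P, g (face G (i, true)) = (if Lf G i = f then (1 : ℤ) else 0) -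
      (if G.lf (G.nxt i) = true then (if Lf G i = f then (1 : ℤ) else 0) else 0) := by
    intro i
    simp only [hg]
    rw [quot_face]
    show (if Lf G i = f then _ else _) = _
    cases h : G.lf (G.nxt i) with
    | true => simp [face, h]
    | false => simp [face, h]
  have e2 : ∀ i : P, g (face G (i, false)) = if G.lf i = true then (if Rf G i = f then (1 : ℤ) else 0) else 0 := by
    intro i
    simp only [hg]
    rw [quot_face]
    show (if Rf G i = f then _ else _) = _
    cases h : G.lf i with
    | true => simp [face, h]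
    | false => simp [face, h]
  have e3 : ∀ i : P, g (i, true) = if Lf G i = f then (1 : ℤ) else 0 := by
    intro i
    simp only [hg]
    show (if Lf G i = f then _ else _) = _
    simp
  have e4 : ∀ i : P, g (i, false) = 0 := by
    intro i
    simp [hg]
  simp only [e1, e2, e3, e4, add_zero] at h1
  rw [Finset.sum_add_distrib, Finset.sum_sub_distrib] at h1
  linarith

open Classical in
/-- The number of crossings behind a face is the number of crossings in front of it. -/
theorem kf_eq_S (ho : ∀ i, G.op i ≠ i) (f : Face G) :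
    kf G f = Nat.card {p : P // G.lf p = true ∧ Lf G (G.nxt.symm p) = f} := by
  have h1 : (kf G f : ℤ) = ∑ p : P, if G.lf (G.nxt p) = true then (if Lf G p = f then (1 : ℤ) else 0) else 0 := by
    rw [kf_eq_sum, face_sum ho]
  have h2 : (Nat.card {p : P // G.lf p = true ∧ Lf G (G.nxt.symm p) = f} : ℤ) =
      ∑ p : P, if G.lf p = true then (if Lf G (G.nxt.symm p) = f then (1 : ℤ) else 0) else 0 := by
    rw [Nat.card_eq_fintype_card, Fintype.card_subtype, Finset.card_filter]
    push_cast
    refine Finset.sum_congr rfl fun p _ => ?_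
    by_cases h1 : G.lf p = true
    · by_cases h2 : Lf G (G.nxt.symm p) = f
      · simp [h1, h2]
      · simp [h1, h2]
    · simp [h1]
  have h3 : (∑ p : P, if G.lf (G.nxt p) = true then (if Lf G p = f then (1 : ℤ) else 0) else 0) =
      ∑ p : P, if G.lf p = true then (if Lf G (G.nxt.symm p) = f then (1 : ℤ) else 0) else 0 := by
    rw [← Equiv.sum_comp G.nxt (fun p => if G.lf p = true then (if Lf G (G.nxt.symm p) = f then (1 : ℤ) else 0) else 0)]
    simp
  have h4 : (kf G f : ℤ) = (Nat.card {p : P // G.lf p = true ∧ Lf G (G.nxt.symm p) = f} : ℤ) := by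
    rw [h1, h2, h3]
  exact_mod_cast h4

/-- The crossings behind a face with `kf f = 1`. -/
theorem kf_one_N {f : Face G} (h : kf G f = 1) : ∃ p, (G.lf p = true ∧ Rf G p = f) ∧
    ∀ q, G.lf q = true → Rf G q = f → q = p := by
  rw [kf, Nat.card_eq_one_iff_unique] at h
  obtain ⟨h1, ⟨p, hp⟩⟩ := h
  exact ⟨p, hp, fun q h2 h3 => congrArg Subtype.val (Subsingleton.elim (⟨q, h2, h3⟩ : {p : P // G.lf p = true ∧ Rf G p = f}) ⟨p, hp⟩)⟩

/-- The crossings in front of a face with `kf f = 1`. -/
theorem kf_one_S (ho : ∀ i, G.op i ≠ i) {f : Face G} (h : kf G f = 1) : ∃ p, (G.lf p = true ∧ Lf G (G.nxt.symm p) = f) ∧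
    ∀ q, G.lf q = true → Lf G (G.nxt.symm q) = f → q = p := by
  rw [kf_eq_S ho, Nat.card_eq_one_iff_unique] at h
  obtain ⟨h1, ⟨p, hp⟩⟩ := h
  exact ⟨p, hp, fun q h2 h3 => congrArg Subtype.val
    (Subsingleton.elim (⟨q, h2, h3⟩ : {p : P // G.lf p = true ∧ Lf G (G.nxt.symm p) = f}) ⟨p, hp⟩)⟩

theorem kf_zero_N {f : Face G} (h : kf G f = 0) (p : P) (hp : G.lf p = true) : Rf G p ≠ f := by
  rw [kf, Finite.card_eq_zero_iff] at h
  intro h1
  exact h.elim ⟨p, hp, h1⟩

theorem kf_zero_S (ho : ∀ i, G.op i ≠ i) {f : Face G} (h : kf G f = 0) (p : P) (hp : G.lf p = true) :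
    Lf G (G.nxt.symm p) ≠ f := by
  rw [kf_eq_S ho, Finite.card_eq_zero_iff] at h
  intro h1
  exact h.elim ⟨p, hp, h1⟩

open Classical in
/-- The boundary of a face without corners in front or behind is seen from one side only. -/
theorem zero_side (ho : ∀ i, G.op i ≠ i) {f : Face G} (h : kf G f = 0) : (∀ e, Rf G e ≠ f) ∨ (∀ e, Lf G e ≠ f) := by
  by_contra hcon
  push Not at hcon
  obtain ⟨⟨e, he⟩, e', he'⟩ := hcon
  have hstep : ∀ d d' : P × Bool, d' = face G d →
      (if (Quot.mk _ d : Face G) = f then d.2 else true) = (if (Quot.mk _ d' : Face G) = f then d'.2 else true) := by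
    intro d d' hd
    subst hd
    rw [quot_face]
    split_ifs with hf
    · obtain ⟨i, b⟩ := d
      cases b with
      | true =>
        have h1 : G.lf (G.nxt i) ≠ true := by
          intro h1
          have := kf_zero_S ho h (G.nxt i) h1
          rw [Equiv.symm_apply_apply] at this
          exact this hf
        simp [face, h1]
      | false =>
        have h1 : G.lf i ≠ true := by
          intro h1
          exact kf_zero_N h i h1 hf
        simp [face, h1]
    · rfl
  set t : Face G → Bool := Quot.lift (fun d => if (Quot.mk _ d : Face G) = f then d.2 else true) hstep with ht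
  have h1 : t (Rf G e) = false := by
    show (if Rf G e = f then false else true) = false
    rw [if_pos he]
  have h2 : t (Lf G e') = true := by
    show (if Lf G e' = f then true else true) = true
    rw [if_pos he']
  rw [he, ← he', h2] at h1
  exact absurd h1 (by simp)

end

/-! ### Counting -/

section

variable [Fintype P] {G : Sh P}

open Classical in
/-- The number of zero faces. -/
theorem zero_card (ho : ∀ i, G.op i ≠ i) (σ : Equiv.Perm P) (hσ : ∀ e, σ e = G.op (G.nxt e)) {s : ℕ}
    (hs : Nat.card (Quotient (Equiv.Perm.SameCycle.setoid σ)) ≤ s) [Fintype (Face G)] :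
    (Finset.univ.filter fun f : Face G => kf G f = 0).card ≤ 2 * s := by
  have hA : (Finset.univ.filter fun f : Face G => ∀ e, Rf G e ≠ f).card ≤ s := by
    refine Pool.Agent.Helper52.PD.card_le_cycles σ (Lf G) _ (fun f hf => ?_) (fun e he => ?_) hs
    · simp only [Finset.mem_filter, Finset.mem_univ, true_and] at hf
      revert hf
      refine face_ind (p := fun f => (∀ e, Rf G e ≠ f) → ∃ e, Lf G e = f) (fun i _ => ⟨i, rfl⟩) (fun i h => absurd rfl (h i)) f
    · simp only [Finset.mem_filter, Finset.mem_univ, true_and] at he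
      rw [hσ]
      cases hl : G.lf (G.nxt e) with
      | false =>
        have h1 : G.lf (G.op (G.nxt e)) = true := by rw [lf_op' ho, hl]; rfl
        have h2 := corner_W h1 (ho _)
        rw [G.op_op, Equiv.symm_apply_apply] at h2
        exact h2
      | true =>
        have h2 := corner_S hl
        rw [Equiv.symm_apply_apply] at h2
        exact absurd h2.symm (he _)
  have hB : (Finset.univ.filter fun f : Face G => ∀ e, Lf G e ≠ f).card ≤ s := by
    refine Pool.Agent.Helper52.PD.card_le_cycles σ (Rf G) _ (fun f hf => ?_) (fun e he => ?_) hs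
    · simp only [Finset.mem_filter, Finset.mem_univ, true_and] at hf
      revert hf
      refine face_ind (p := fun f => (∀ e, Lf G e ≠ f) → ∃ e, Rf G e = f) (fun i h => absurd rfl (h i)) (fun i _ => ⟨i, rfl⟩) f
    · simp only [Finset.mem_filter, Finset.mem_univ, true_and] at he
      rw [hσ]
      cases hl : G.lf (G.nxt e) with
      | false =>
        have h1 : G.lf (G.op (G.nxt e)) = true := by rw [lf_op' ho, hl]; rfl
        have h2 := corner_S h1
        rw [G.op_op, Equiv.symm_apply_apply] at h2
        exact absurd h2 (he _)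
      | true =>
        have h2 := corner_E hl (ho _)
        rw [Equiv.symm_apply_apply] at h2
        exact h2.symm
  have hsub : (Finset.univ.filter fun f : Face G => kf G f = 0) ⊆
      (Finset.univ.filter fun f : Face G => ∀ e, Rf G e ≠ f) ∪ (Finset.univ.filter fun f : Face G => ∀ e, Lf G e ≠ f) := by
    intro f hf
    simp only [Finset.mem_filter, Finset.mem_univ, true_and, Finset.mem_union] at hf ⊢
    exact zero_side ho hf
  calc _ ≤ _ := Finset.card_le_card hsub
    _ ≤ _ := Finset.card_union_le _ _
    _ ≤ 2 * s := by omega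

open Classical in
/-- The number of crossings. -/
theorem card_lf (ho : ∀ i, G.op i ≠ i) : 2 * (Finset.univ.filter fun p : P => G.lf p = true).card = Nat.card P := by
  have h1 : (Finset.univ.filter fun p : P => G.lf p = true).card = (Finset.univ.filter fun p : P => ¬ G.lf p = true).card := by
    refine Finset.card_bij (fun p _ => G.op p) (fun p hp => ?_) (fun p _ q _ h => op_inj G h) (fun q hq => ?_)
    · simp only [Finset.mem_filter, Finset.mem_univ, true_and] at hp ⊢
      rw [lf_op' ho, hp]
      simp
    · simp only [Finset.mem_filter, Finset.mem_univ, true_and] at hq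
      refine ⟨G.op q, ?_, G.op_op q⟩
      simp only [Finset.mem_filter, Finset.mem_univ, true_and]
      rw [lf_op' ho]
      simpa using hq
  have h2 := Finset.card_filter_add_card_filter_not (s := (Finset.univ : Finset P)) (fun p => G.lf p = true)
  rw [Nat.card_eq_fintype_card, ← Finset.card_univ, ← h2, ← h1]
  omega

open Classical in
/-- Counting the crossings behind the faces with the property `p`. -/
theorem fib_N [Fintype (Face G)] (p : Face G → Prop) :
    (Finset.univ.filter fun i : P => G.lf i = true ∧ p (Rf G i)).card = ∑ f ∈ Finset.univ.filter p, kf G f := by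
  rw [Finset.card_eq_sum_card_fiberwise (f := fun i => Rf G i) (t := Finset.univ.filter p)]
  · refine Finset.sum_congr rfl fun f hf => ?_
    simp only [Finset.mem_filter, Finset.mem_univ, true_and] at hf
    rw [kf, Nat.card_eq_fintype_card, Fintype.card_subtype]
    congr 1
    ext i
    simp only [Finset.mem_filter, Finset.mem_univ, true_and]
    constructor
    · rintro ⟨⟨h1, _⟩, h2⟩
      exact ⟨h1, h2⟩
    · rintro ⟨h1, h2⟩
      exact ⟨⟨h1, by rw [h2]; exact hf⟩, h2⟩
  · intro i hi
    simp only [Finset.coe_filter, Finset.mem_univ, true_and, Set.mem_setOf_eq] at hi ⊢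
    exact hi.2

open Classical in
/-- Counting the crossings in front of the faces with the property `p`. -/
theorem fib_S (ho : ∀ i, G.op i ≠ i) [Fintype (Face G)] (p : Face G → Prop) :
    (Finset.univ.filter fun i : P => G.lf i = true ∧ p (Lf G (G.nxt.symm i))).card = ∑ f ∈ Finset.univ.filter p, kf G f := by
  rw [Finset.card_eq_sum_card_fiberwise (f := fun i => Lf G (G.nxt.symm i)) (t := Finset.univ.filter p)]
  · refine Finset.sum_congr rfl fun f hf => ?_
    simp only [Finset.mem_filter, Finset.mem_univ, true_and] at hf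
    rw [kf_eq_S ho, Nat.card_eq_fintype_card, Fintype.card_subtype]
    congr 1
    ext i
    simp only [Finset.mem_filter, Finset.mem_univ, true_and]
    constructor
    · rintro ⟨⟨h1, _⟩, h2⟩
      exact ⟨h1, h2⟩
    · rintro ⟨h1, h2⟩
      exact ⟨⟨h1, by rw [h2]; exact hf⟩, h2⟩
  · intro i hi
    simp only [Finset.coe_filter, Finset.mem_univ, true_and, Set.mem_setOf_eq] at hi ⊢
    exact hi.2

open Classical in
/-- `Σ (k_f - 1) = -2`. -/
theorem sum_kf (ho : ∀ i, G.op i ≠ i) (hpl : Planar G) [Fintype (Face G)] :
    (∑ f : Face G, kf G f) + 2 = Fintype.card (Face G) := by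
  have h1 := fib_N (G := G) (fun _ => True)
  have h2 := card_lf (G := G) ho
  have h3 : 2 * Nat.card (Face G) = Nat.card P + 4 := hpl
  rw [Nat.card_eq_fintype_card] at h3
  simp only [and_true, Finset.filter_true] at h1
  have h4 : (Finset.univ.filter fun i : P => G.lf i = true).card = ∑ f : Face G, kf G f := h1
  omega

open Classical in
/-- The crossings at the faces with `k_f > 1`. -/
theorem sum_big (ho : ∀ i, G.op i ≠ i) (hpl : Planar G) (σ : Equiv.Perm P) (hσ : ∀ e, σ e = G.op (G.nxt e)) {s : ℕ}
    (hs : Nat.card (Quotient (Equiv.Perm.SameCycle.setoid σ)) ≤ s) [Fintype (Face G)] :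
    ∑ f ∈ Finset.univ.filter (fun f : Face G => kf G f ≠ 1), kf G f ≤ 4 * s := by
  have h0 := zero_card ho σ hσ hs
  have h1 := sum_kf ho hpl
  set Z := Finset.univ.filter fun f : Face G => kf G f = 0 with hZ
  -- every face: kf f + 2 [kf f = 0] >= 1 + ..., summed
  have h2 : (∑ f : Face G, kf G f) = (∑ f ∈ Finset.univ.filter (fun f : Face G => kf G f ≠ 1), kf G f) +
      (Finset.univ.filter (fun f : Face G => kf G f = 1)).card := by
    rw [← Finset.sum_filter_add_sum_filter_not Finset.univ (fun f : Face G => kf G f ≠ 1)]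
    congr 1
    rw [Finset.card_eq_sum_ones]
    refine Finset.sum_congr (by ext f; simp) fun f hf => ?_
    simp only [Finset.mem_filter, Finset.mem_univ, true_and] at hf
    exact hf
  have h3 : Fintype.card (Face G) = (Finset.univ.filter (fun f : Face G => kf G f ≠ 1)).card +
      (Finset.univ.filter (fun f : Face G => kf G f = 1)).card := by
    rw [← Finset.card_univ, ← Finset.card_filter_add_card_filter_not (s := Finset.univ) (fun f : Face G => kf G f ≠ 1)]
    congr 2
    ext f
    simp
  have h4 : 2 * (Finset.univ.filter (fun f : Face G => kf G f ≠ 1)).card ≤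
      (∑ f ∈ Finset.univ.filter (fun f : Face G => kf G f ≠ 1), kf G f) + 2 * Z.card := by
    have e1 : Z.card = ∑ f ∈ Finset.univ.filter (fun f : Face G => kf G f ≠ 1), (if kf G f = 0 then 1 else 0) := by
      rw [Finset.sum_ite, Finset.sum_const_zero, add_zero, Finset.sum_const, smul_eq_mul, mul_one, Finset.filter_filter]
      congr 1
      ext f
      simp only [hZ, Finset.mem_filter, Finset.mem_univ, true_and]
      omega
    rw [e1, Finset.mul_sum, ← Finset.sum_add_distrib, Finset.card_eq_sum_ones, Finset.mul_sum]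
    refine Finset.sum_le_sum fun f hf => ?_
    simp only [Finset.mem_filter, Finset.mem_univ, true_and] at hf
    split_ifs with h
    · omega
    · omega
  omega

open Classical in
/-- **The special crossings.** At most `8 s + 4 |C|` crossings have a face with `k ≠ 1` or with an edge of `C` on its boundary in front of them or behind
them. -/
theorem special_card (ho : ∀ i, G.op i ≠ i) (hpl : Planar G) (σ : Equiv.Perm P) (hσ : ∀ e, σ e = G.op (G.nxt e)) {s : ℕ}
    (hs : Nat.card (Quotient (Equiv.Perm.SameCycle.setoid σ)) ≤ s) (C : Finset P) (S : Finset P)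
    (hS : ∀ p ∈ S, G.lf p = true ∧ ((kf G (Rf G p) ≠ 1 ∨ ∃ e ∈ C, Lf G e = Rf G p ∨ Rf G e = Rf G p) ∨
      (kf G (Lf G (G.nxt.symm p)) ≠ 1 ∨ ∃ e ∈ C, Lf G e = Lf G (G.nxt.symm p) ∨ Rf G e = Lf G (G.nxt.symm p)))) :
    S.card ≤ 8 * s + 4 * C.card := by
  haveI : Fintype (Face G) := Fintype.ofFinite _
  have hb := sum_big ho hpl σ hσ hs
  have hN := fib_N (G := G) (fun f => kf G f ≠ 1)
  have hSS := fib_S ho (fun f => kf G f ≠ 1)
  set N1 := Finset.univ.filter fun i : P => G.lf i = true ∧ kf G (Rf G i) ≠ 1 with hN1
  set S1 := Finset.univ.filter fun i : P => G.lf i = true ∧ kf G (Lf G (G.nxt.symm i)) ≠ 1 with hS1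
  set T := C.image (Lf G) ∪ C.image (Rf G) with hT
  have hTc : T.card ≤ 2 * C.card := by
    calc T.card ≤ (C.image (Lf G)).card + (C.image (Rf G)).card := Finset.card_union_le _ _
      _ ≤ C.card + C.card := Nat.add_le_add Finset.card_image_le Finset.card_image_le
      _ = 2 * C.card := by ring
  set N2 := Finset.univ.filter fun i : P => G.lf i = true ∧ kf G (Rf G i) = 1 ∧ Rf G i ∈ T with hN2
  set S2 := Finset.univ.filter fun i : P => G.lf i = true ∧ kf G (Lf G (G.nxt.symm i)) = 1 ∧ Lf G (G.nxt.symm i) ∈ T with hS2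
  have hN2c : N2.card ≤ 2 * C.card := by
    refine le_trans (Finset.card_le_card_of_injOn (fun i => Rf G i) (fun i hi => ?_) (fun i hi j hj hij => ?_)) hTc
    · simp only [hN2, Finset.coe_filter, Finset.mem_univ, true_and, Set.mem_setOf_eq] at hi
      exact hi.2.2
    · simp only [hN2, Finset.coe_filter, Finset.mem_univ, true_and, Set.mem_setOf_eq] at hi hj
      obtain ⟨p, -, hp⟩ := kf_one_N hi.2.1
      exact (hp i hi.1 rfl).trans (hp j hj.1 hij.symm).symm
  have hS2c : S2.card ≤ 2 * C.card := by
    refine le_trans (Finset.card_le_card_of_injOn (fun i => Lf G (G.nxt.symm i)) (fun i hi => ?_) (fun i hi j hj hij => ?_)) hTc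
    · simp only [hS2, Finset.coe_filter, Finset.mem_univ, true_and, Set.mem_setOf_eq] at hi
      exact hi.2.2
    · simp only [hS2, Finset.coe_filter, Finset.mem_univ, true_and, Set.mem_setOf_eq] at hi hj
      obtain ⟨p, -, hp⟩ := kf_one_S ho hi.2.1
      exact (hp i hi.1 rfl).trans (hp j hj.1 hij.symm).symm
  have hmem : ∀ f : Face G, (∃ e ∈ C, Lf G e = f ∨ Rf G e = f) → f ∈ T := by
    rintro f ⟨e, he, h | h⟩
    · exact Finset.mem_union_left _ (Finset.mem_image.2 ⟨e, he, h⟩)
    · exact Finset.mem_union_right _ (Finset.mem_image.2 ⟨e, he, h⟩)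
  have hsub : S ⊆ (N1 ∪ S1) ∪ (N2 ∪ S2) := by
    intro p hp
    obtain ⟨h1, h2⟩ := hS p hp
    simp only [hN1, hS1, hN2, hS2, Finset.mem_union, Finset.mem_filter, Finset.mem_univ, true_and]
    rcases h2 with (h2 | h2) | (h2 | h2)
    · exact Or.inl (Or.inl ⟨h1, h2⟩)
    · by_cases h3 : kf G (Rf G p) = 1
      · exact Or.inr (Or.inl ⟨h1, h3, hmem _ h2⟩)
      · exact Or.inl (Or.inl ⟨h1, h3⟩)
    · exact Or.inl (Or.inr ⟨h1, h2⟩)
    · by_cases h3 : kf G (Lf G (G.nxt.symm p)) = 1
      · exact Or.inr (Or.inr ⟨h1, h3, hmem _ h2⟩)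
      · exact Or.inl (Or.inr ⟨h1, h3⟩)
  have h1 := Finset.card_le_card hsub
  have h2 := Finset.card_union_le (N1 ∪ S1) (N2 ∪ S2)
  have h3 := Finset.card_union_le N1 S1
  have h4 := Finset.card_union_le N2 S2
  have e1 : N1.card ≤ 4 * s := by
    refine le_trans (le_of_eq ?_) (le_trans (le_of_eq hN) (le_trans (le_of_eq ?_) hb))
    · refine congrArg Finset.card ?_
      ext i
      simp only [hN1, Finset.mem_filter, Finset.mem_univ, true_and]
    · refine Finset.sum_congr ?_ fun f _ => rfl
      ext f
      simp only [Finset.mem_filter, Finset.mem_univ, true_and]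
  have e2 : S1.card ≤ 4 * s := by
    refine le_trans (le_of_eq ?_) (le_trans (le_of_eq hSS) (le_trans (le_of_eq ?_) hb))
    · refine congrArg Finset.card ?_
      ext i
      simp only [hS1, Finset.mem_filter, Finset.mem_univ, true_and]
    · refine Finset.sum_congr ?_ fun f _ => rfl
      ext f
      simp only [Finset.mem_filter, Finset.mem_univ, true_and]
  omega

end

end Pool.Agent.Helper2.PD
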