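import Pool.Agent.Helper85.EV2.Exp

/-!
# EV3, block 1: faces of a shadow, circulations are differences of face potentials in a planar shadow

`(i, true)` is the edge from the passage `i` to the next passage, seen from its left side, `(i, false)` the same edge seen from its right side.
-/

set_option autoImplicit false

namespace Pool.Agent.Helper2.PD

open Pool.Agent.Helper85.Exp

variable {P : Type}

/-- `(i, true)` is the edge from the passage `i` to the next passage, `(i, false)` the same edge traversed backwards. `face` is the next edge of the face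
to the left. -/
def face (G : Sh P) (d : P × Bool) : P × Bool :=
  if d.2 then (if G.lf (G.nxt d.1) then (G.nxt.symm (G.op (G.nxt d.1)), false) else (G.op (G.nxt d.1), true))
  else (if G.lf d.1 then (G.op d.1, true) else (G.nxt.symm (G.op d.1), false))

/-- The faces of the shadow. -/
def Face (G : Sh P) : Type := Quot fun d d' : P × Bool => d' = face G d

/-- The face to the left of the edge `i`. -/
def Lf (G : Sh P) (i : P) : Face G := Quot.mk _ (i, true)

/-- The face to the right of the edge `i`. -/
def Rf (G : Sh P) (i : P) : Face G := Quot.mk _ (i, false)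

/-- The shadow has genus zero: the number of faces is the number of crossings plus two (for connected shadows). -/
def Planar (G : Sh P) : Prop := 2 * Nat.card (Face G) = Nat.card P + 4

/-- The shadow is connected. -/
def Conn (G : Sh P) : Prop :=
  ∀ C : P → Prop, (∃ v, C v) → (∀ v, C (G.nxt v) ↔ C v) → (∀ v, C (G.op v) ↔ C v) → ∀ v, C v

theorem face_ind {G : Sh P} {p : Face G → Prop} (h1 : ∀ i, p (Lf G i)) (h2 : ∀ i, p (Rf G i)) (f : Face G) : p f := by
  induction f using Quot.ind with
  | mk d =>
    obtain ⟨i, b⟩ := d
    cases b with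
    | true => exact h1 i
    | false => exact h2 i

instance [Finite P] (G : Sh P) : Finite (Face G) := Quot.finite _

section Corners

variable {G : Sh P}

theorem quot_face (d : P × Bool) :
    (Quot.mk (fun d d' : P × Bool => d' = face G d) (face G d) : Face G) = Quot.mk _ d :=
  (Quot.sound (r := fun d d' : P × Bool => d' = face G d) (a := d) (b := face G d) rfl).symm

/-- The face behind the crossing. -/
theorem corner_S {i : P} (hi : G.lf i = true) : Lf G (G.nxt.symm i) = Rf G (G.nxt.symm (G.op i)) := by
  have h := quot_face (G := G) (G.nxt.symm i, true)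
  simp only [face, if_true, Equiv.apply_symm_apply, hi] at h
  exact h.symm

/-- The face in front of the crossing. -/
theorem corner_N {i : P} (hi : G.lf i = true) : Rf G i = Lf G (G.op i) := by
  have h := quot_face (G := G) (i, false)
  simp only [face, hi, if_true, Bool.false_eq_true, if_false] at h
  exact h.symm

/-- The face to the left of the crossing. -/
theorem corner_W {i : P} (hi : G.lf i = true) (ho : G.op i ≠ i) : Lf G i = Lf G (G.nxt.symm (G.op i)) := by
  have h1 : G.lf (G.op i) = false := by rw [G.lf_op i ho, hi]; rfl
  have h := quot_face (G := G) (G.nxt.symm (G.op i), true)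
  simp only [face, if_true, Equiv.apply_symm_apply, h1, Bool.false_eq_true, if_false, G.op_op] at h
  exact h

/-- The face to the right of the crossing. -/
theorem corner_E {i : P} (hi : G.lf i = true) (ho : G.op i ≠ i) : Rf G (G.nxt.symm i) = Rf G (G.op i) := by
  have h1 : G.lf (G.op i) = false := by rw [G.lf_op i ho, hi]; rfl
  have h := quot_face (G := G) (G.op i, false)
  simp only [face, h1, Bool.false_eq_true, if_false, G.op_op] at h
  exact h

end Corners

/-- A circulation: at every crossing the sum over the incoming edges is the sum over the outgoing edges. -/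
def Circ {A : Type} [Add A] (G : Sh P) (y : P → A) : Prop :=
  ∀ i, y (G.nxt.symm i) + y (G.nxt.symm (G.op i)) = y i + y (G.op i)

theorem circ_of {A : Type} [AddCommGroup A] {G : Sh P} (ho : ∀ i, G.op i ≠ i) (h : Face G → A) :
    Circ G fun i => h (Lf G i) - h (Rf G i) := by
  have key : ∀ i, G.lf i = true → (h (Lf G (G.nxt.symm i)) - h (Rf G (G.nxt.symm i))) +
      (h (Lf G (G.nxt.symm (G.op i))) - h (Rf G (G.nxt.symm (G.op i)))) =
      (h (Lf G i) - h (Rf G i)) + (h (Lf G (G.op i)) - h (Rf G (G.op i))) := by
    intro i hi
    rw [corner_S hi, corner_E hi (ho i), ← corner_W hi (ho i), corner_N hi]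
    abel
  intro i
  cases hi : G.lf i with
  | true => exact key i hi
  | false =>
    have h1 : G.lf (G.op i) = true := by rw [G.lf_op i (ho i), hi]; rfl
    have h2 := key (G.op i) h1
    rw [G.op_op] at h2
    show (h (Lf G (G.nxt.symm i)) - h (Rf G (G.nxt.symm i))) +
      (h (Lf G (G.nxt.symm (G.op i))) - h (Rf G (G.nxt.symm (G.op i)))) =
      (h (Lf G i) - h (Rf G i)) + (h (Lf G (G.op i)) - h (Rf G (G.op i)))
    rw [add_comm, h2, add_comm]

/-- Sets of faces which are closed under passing an edge contain everything or nothing. -/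
theorem face_conn {G : Sh P} (hc : Conn G) (ho : ∀ i, G.op i ≠ i) {p : Face G → Prop} (h : ∀ i, p (Lf G i) ↔ p (Rf G i))
    {f : Face G} (hf : p f) (g : Face G) : p g := by
  have key : ∀ i, G.lf i = true → ((p (Lf G (G.nxt.symm i)) ↔ p (Lf G i)) ∧ (p (Lf G (G.op i)) ↔ p (Lf G i)) ∧
      (p (Lf G (G.nxt.symm (G.op i))) ↔ p (Lf G i))) := by
    intro i hi
    have a1 := corner_S hi
    have a2 := corner_N hi
    have a3 := corner_W hi (ho i)
    have b1 := h i
    have b2 := h (G.nxt.symm (G.op i))
    refine ⟨?_, ?_, ?_⟩
    · rw [a1, ← b2, ← a3]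
    · rw [← a2, b1]
    · rw [← a3]
  have hop : ∀ i, p (Lf G (G.op i)) ↔ p (Lf G i) := by
    intro i
    cases hi : G.lf i with
    | true => exact (key i hi).2.1
    | false =>
      have h1 : G.lf (G.op i) = true := by rw [G.lf_op i (ho i), hi]; rfl
      have h2 := (key _ h1).2.1
      rw [G.op_op] at h2
      exact h2.symm
  have hpre : ∀ i, p (Lf G (G.nxt.symm i)) ↔ p (Lf G i) := by
    intro i
    cases hi : G.lf i with
    | true => exact (key i hi).1
    | false =>
      have h1 : G.lf (G.op i) = true := by rw [G.lf_op i (ho i), hi]; rfl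
      have h2 := (key _ h1).2.2
      rw [G.op_op] at h2
      rw [h2, hop]
  have hall : ∀ i, p (Lf G i) := by
    apply hc (fun i => p (Lf G i))
    · revert hf
      refine face_ind (p := fun f => p f → ∃ i, p (Lf G i)) ?_ ?_ f
      · intro i hi
        exact ⟨i, hi⟩
      · intro i hi
        exact ⟨i, (h i).2 hi⟩
    · intro v
      have h1 := hpre (G.nxt v)
      rw [Equiv.symm_apply_apply] at h1
      exact h1.symm
    · exact hop
  exact face_ind hall (fun i => (h i).1 (hall i)) g

/-- A potential without differences is constant. -/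
theorem const_of {A : Type} {G : Sh P} (hc : Conn G) (ho : ∀ i, G.op i ≠ i) (h : Face G → A)
    (h1 : ∀ i, h (Lf G i) = h (Rf G i)) (f g : Face G) : h f = h g :=
  face_conn hc ho (p := fun f => h f = h g) (fun i => by rw [h1 i]) (f := g) rfl f

/-! ### The dimension of the space of circulations -/

section Dim

set_option linter.unusedSectionVars false

variable [Fintype P] {G : Sh P} {F : Type} [Field F]

/-- The circulations. -/
def flowF (G : Sh P) (F : Type) [Field F] : Submodule F (P → F) where
  carrier := {y | Circ G y}
  add_mem' := by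
    intro a b ha hb i
    have h1 := ha i
    have h2 := hb i
    simp only [Pi.add_apply]
    linear_combination h1 + h2
  zero_mem' := by
    intro i
    simp
  smul_mem' := by
    intro t a ha i
    have h1 := ha i
    simp only [Pi.smul_apply, smul_eq_mul]
    linear_combination t * h1

/-- The crossings, given by their left passages. -/
abbrev Xg (G : Sh P) : Type := {x : P // G.lf x = true}

theorem card_P (G : Sh P) (ho : ∀ i, G.op i ≠ i) : Nat.card P = 2 * Nat.card (Xg G) := by
  classical
  have e : {x : P // G.lf x = true} ≃ {x : P // ¬ G.lf x = true} :=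
    { toFun := fun x => ⟨G.op x.1, by rw [G.lf_op _ (ho _), x.2]; simp⟩
      invFun := fun x => ⟨G.op x.1, by
        have h := x.2
        rw [G.lf_op _ (ho _)]
        simpa using h⟩
      left_inv := fun x => Subtype.ext (G.op_op _)
      right_inv := fun x => Subtype.ext (G.op_op _) }
  have h1 := Fintype.card_subtype_compl (fun x : P => G.lf x = true)
  have h2 := Fintype.card_congr e
  have h3 := Fintype.card_subtype_le (fun x : P => G.lf x = true)
  have h4 : Nat.card (Xg G) = Fintype.card {x : P // G.lf x = true} := Nat.card_eq_fintype_card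
  rw [Nat.card_eq_fintype_card, h4]
  omega

/-- The divergence at the crossings. -/
noncomputable def dvg (G : Sh P) (F : Type) [Field F] : (P → F) →ₗ[F] (Xg G → F) where
  toFun c x := c (G.nxt.symm x.1) + c (G.nxt.symm (G.op x.1)) - c x.1 - c (G.op x.1)
  map_add' a b := by
    funext x
    simp only [Pi.add_apply]
    ring
  map_smul' t a := by
    funext x
    simp only [Pi.smul_apply, smul_eq_mul, RingHom.id_apply]
    ring

theorem dvg_ker (ho : ∀ i, G.op i ≠ i) : LinearMap.ker (dvg G F) = flowF G F := by
  ext c
  rw [LinearMap.mem_ker]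
  constructor
  · intro h i
    cases hi : G.lf i with
    | true =>
      have h1 : c (G.nxt.symm i) + c (G.nxt.symm (G.op i)) - c i - c (G.op i) = 0 := congrFun h ⟨i, hi⟩
      linear_combination h1
    | false =>
      have hi' : G.lf (G.op i) = true := by rw [G.lf_op i (ho i), hi]; rfl
      have h1 : c (G.nxt.symm (G.op i)) + c (G.nxt.symm (G.op (G.op i))) - c (G.op i) - c (G.op (G.op i)) = 0 :=
        congrFun h ⟨G.op i, hi'⟩
      rw [G.op_op] at h1
      linear_combination h1
  · intro h
    funext x
    have h1 : c (G.nxt.symm x.1) + c (G.nxt.symm (G.op x.1)) = c x.1 + c (G.op x.1) := h x.1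
    show c (G.nxt.symm x.1) + c (G.nxt.symm (G.op x.1)) - c x.1 - c (G.op x.1) = 0
    linear_combination h1

open Classical in
/-- The indicator function of the crossing of `j`. -/
noncomputable def chi (G : Sh P) (F : Type) [Field F] (j : P) : Xg G → F :=
  fun x => (if x.1 = j then 1 else 0) + (if G.op x.1 = j then 1 else 0)

open Classical in
theorem dvg_single (i : P) : dvg G F (Pi.single i 1) = chi G F (G.nxt i) - chi G F i := by
  funext x
  show (Pi.single i 1 : P → F) (G.nxt.symm x.1) + (Pi.single i 1 : P → F) (G.nxt.symm (G.op x.1))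
    - (Pi.single i 1 : P → F) x.1 - (Pi.single i 1 : P → F) (G.op x.1) =
    ((if x.1 = G.nxt i then 1 else 0) + (if G.op x.1 = G.nxt i then 1 else 0)) -
      ((if x.1 = i then 1 else 0) + (if G.op x.1 = i then 1 else 0))
  have h1 : ∀ j : P, (G.nxt.symm j = i) ↔ (j = G.nxt i) := fun j => by
    rw [Equiv.symm_apply_eq]
  simp only [Pi.single_apply, h1]
  ring

theorem chi_op (j : P) : chi G F (G.op j) = chi G F j := by
  classical
  funext x
  unfold chi
  have h1 : (x.1 = G.op j) ↔ (G.op x.1 = j) := by
    constructor
    · intro h
      rw [h, G.op_op]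
    · intro h
      rw [← h, G.op_op]
  have h2 : (G.op x.1 = G.op j) ↔ (x.1 = j) := (op_inj G).eq_iff
  simp only [h1, h2]
  ring

theorem chi_mem (hc : Conn G) (j0 j : P) : chi G F j - chi G F j0 ∈ LinearMap.range (dvg G F) := by
  classical
  apply hc (fun j => chi G F j - chi G F j0 ∈ LinearMap.range (dvg G F)) ⟨j0, by rw [sub_self]; exact Submodule.zero_mem _⟩
  · intro v
    have h1 : chi G F (G.nxt v) - chi G F v ∈ LinearMap.range (dvg G F) := ⟨Pi.single v 1, dvg_single v⟩
    constructor
    · intro h
      have h2 := Submodule.sub_mem _ h h1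
      have h3 : chi G F (G.nxt v) - chi G F j0 - (chi G F (G.nxt v) - chi G F v) = chi G F v - chi G F j0 := by abel
      rwa [h3] at h2
    · intro h
      have h2 := Submodule.add_mem _ h h1
      have h3 : chi G F v - chi G F j0 + (chi G F (G.nxt v) - chi G F v) = chi G F (G.nxt v) - chi G F j0 := by abel
      rwa [h3] at h2
  · intro v
    rw [chi_op]

open Classical in
theorem chi_left (ho : ∀ i, G.op i ≠ i) (j : Xg G) : chi G F j.1 = Pi.single j 1 := by
  funext x
  have h1 : G.op x.1 ≠ j.1 := by
    intro h
    have h2 := G.lf_op x.1 (ho _)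
    rw [h, j.2, x.2] at h2
    simp at h2
  show (if x.1 = j.1 then (1 : F) else 0) + (if G.op x.1 = j.1 then 1 else 0) = _
  rw [if_neg h1, add_zero, Pi.single_apply]
  by_cases hxj : x = j
  · rw [if_pos hxj, if_pos (congrArg Subtype.val hxj)]
  · rw [if_neg hxj, if_neg (fun h => hxj (Subtype.ext h))]

theorem finrank_flow (hc : Conn G) (ho : ∀ i, G.op i ≠ i) : 2 * Module.finrank F (flowF G F) ≤ Nat.card P + 2 := by
  classical
  have h1 := LinearMap.finrank_range_add_finrank_ker (dvg G F)
  rw [dvg_ker ho, Module.finrank_fintype_fun_eq_card] at h1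
  have hcd := card_P G ho
  rw [Nat.card_eq_fintype_card, Nat.card_eq_fintype_card] at hcd
  rw [Nat.card_eq_fintype_card]
  rcases isEmpty_or_nonempty P with hN | ⟨⟨j0⟩⟩
  · have h2 : Fintype.card P = 0 := Fintype.card_eq_zero
    omega
  · have h2 : (⊤ : Submodule F (Xg G → F)) ≤
        LinearMap.range (dvg G F) ⊔ Submodule.span F {chi G F j0} := by
      intro v _
      have h3 : v = ∑ j, v j • (Pi.single j 1 : Xg G → F) := by
        funext x
        rw [Finset.sum_apply]
        simp [Pi.single_apply]
      rw [h3]
      apply Submodule.sum_mem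
      intro j _
      apply Submodule.smul_mem
      rw [← chi_left ho]
      have h4 : chi G F j.1 = (chi G F j.1 - chi G F j0) + chi G F j0 := by abel
      rw [h4]
      apply Submodule.add_mem
      · exact Submodule.mem_sup_left (chi_mem hc j0 j.1)
      · exact Submodule.mem_sup_right (Submodule.mem_span_singleton_self _)
    have h3 := Submodule.finrank_mono h2
    rw [finrank_top, Module.finrank_fintype_fun_eq_card] at h3
    have h4 := Submodule.finrank_add_le_finrank_add_finrank (LinearMap.range (dvg G F))
      (Submodule.span F {chi G F j0})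
    have h5 : Module.finrank F (Submodule.span F {chi G F j0}) ≤ 1 := by
      have h6 := finrank_span_le_card (R := F) ({chi G F j0} : Set _)
      simpa using h6
    omega

/-- The differences of a face potential. -/
noncomputable def dl (G : Sh P) (F : Type) [Field F] : (Face G → F) →ₗ[F] (P → F) where
  toFun g i := g (Lf G i) - g (Rf G i)
  map_add' := by
    intro a b
    funext i
    simp only [Pi.add_apply]
    ring
  map_smul' := by
    intro t a
    funext i
    simp only [Pi.smul_apply, smul_eq_mul, RingHom.id_apply]
    ring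

/-- (H) In a connected planar shadow every circulation is the difference of a face potential. -/
theorem circ_iff (hc : Conn G) (ho : ∀ i, G.op i ≠ i) (hp : Planar G) (y : P → F) (hy : Circ G y) :
    ∃ h : Face G → F, ∀ i, y i = h (Lf G i) - h (Rf G i) := by
  classical
  have _ : Fintype (Face G) := Fintype.ofFinite _
  have hle : LinearMap.range (dl G F) ≤ flowF G F := by
    rintro _ ⟨g, rfl⟩
    exact circ_of ho g
  have hk1 : Module.finrank F (LinearMap.ker (dl G F)) ≤ 1 := by
    rcases isEmpty_or_nonempty (Face G) with hN | ⟨⟨f0⟩⟩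
    · have h2 : Module.finrank F (Face G → F) = 0 := by
        rw [Module.finrank_fintype_fun_eq_card, Fintype.card_eq_zero]
      exact (Submodule.finrank_le _).trans (by omega)
    · have hker : LinearMap.ker (dl G F) ≤ Submodule.span F {(fun _ => 1 : Face G → F)} := by
        intro g hg
        rw [Submodule.mem_span_singleton]
        refine ⟨g f0, ?_⟩
        funext q
        have hk : ∀ i, g (Lf G i) = g (Rf G i) := by
          intro i
          have h1 : dl G F g i = 0 := by
            rw [LinearMap.mem_ker.mp hg]
            rfl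
          exact sub_eq_zero.1 h1
        simp only [Pi.smul_apply, smul_eq_mul, mul_one]
        exact const_of hc ho g hk f0 q
      refine (Submodule.finrank_mono hker).trans ?_
      have h1 := finrank_span_le_card (R := F) ({(fun _ => 1 : Face G → F)} : Set _)
      simpa using h1
  have hrn := LinearMap.finrank_range_add_finrank_ker (dl G F)
  rw [Module.finrank_fintype_fun_eq_card] at hrn
  have hfc : Fintype.card (Face G) = Nat.card (Face G) := Nat.card_eq_fintype_card.symm
  have hfl := finrank_flow (F := F) hc ho
  have hp' : 2 * Nat.card (Face G) = Nat.card P + 4 := hp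
  have heq : LinearMap.range (dl G F) = flowF G F := by
    apply Submodule.eq_of_le_of_finrank_le hle
    omega
  have hy' : y ∈ flowF G F := hy
  rw [← heq] at hy'
  obtain ⟨g, hg⟩ := hy'
  refine ⟨g, fun i => ?_⟩
  rw [← hg]
  rfl

end Dim

/-- The integral version of (H). -/
theorem circ_int [Fintype P] {G : Sh P} (hc : Conn G) (ho : ∀ i, G.op i ≠ i) (hp : Planar G) (y : P → ℤ) (hy : Circ G y) :
    ∃ h : Face G → ℤ, ∀ i, y i = h (Lf G i) - h (Rf G i) := by
  classical
  obtain ⟨g, hg⟩ := circ_iff hc ho hp (fun i => (y i : ℚ)) (fun i => by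
    have := hy i
    show (y (G.nxt.symm i) : ℚ) + (y (G.nxt.symm (G.op i)) : ℚ) = (y i : ℚ) + (y (G.op i) : ℚ)
    exact_mod_cast this)
  rcases isEmpty_or_nonempty (Face G) with hN | ⟨⟨f0⟩⟩
  · exact ⟨fun f => (hN.false f).elim, fun i => (hN.false (Lf G i)).elim⟩
  · have h1 : ∀ f, ∃ z : ℤ, g f - g f0 = z := by
      intro f
      refine face_conn hc ho (p := fun f => ∃ z : ℤ, g f - g f0 = z) ?_ (f := f0) ⟨0, by simp⟩ f
      intro i
      have h2 := hg i
      constructor
      · rintro ⟨z, hz⟩
        refine ⟨z - y i, ?_⟩
        push_cast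
        linear_combination hz + h2
      · rintro ⟨z, hz⟩
        refine ⟨z + y i, ?_⟩
        push_cast
        linear_combination hz - h2
    choose h hh using h1
    refine ⟨h, fun i => ?_⟩
    have h2 := hg i
    have h3 := hh (Lf G i)
    have h4 := hh (Rf G i)
    have h5 : ((y i : ℤ) : ℚ) = ((h (Lf G i) - h (Rf G i) : ℤ) : ℚ) := by
      push_cast
      linear_combination h2 - h4 + h3
    exact_mod_cast h5

/-- The index of the faces: it grows by one from the right to the left of every edge. -/
theorem exists_kappa [Fintype P] {G : Sh P} (hc : Conn G) (ho : ∀ i, G.op i ≠ i) (hp : Planar G) :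
    ∃ k : Face G → ℤ, ∀ i, k (Lf G i) = k (Rf G i) + 1 := by
  obtain ⟨k, hk⟩ := circ_int hc ho hp (fun _ => 1) (fun i => rfl)
  exact ⟨k, fun i => by have := hk i; omega⟩

end Pool.Agent.Helper2.PD
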