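import Pool.Agent.Helper2.PD.Corners
import Pool.Agent.Helper43.PD.Plane

/-!
# Zero faces and Seifert circles: classification by counting
-/

set_option autoImplicit false

namespace Pool.Agent.Helper2.PD

open Pool.Agent.Helper85.Exp Pool.Agent.Helper43.Pln

variable {P : Type}

section

variable [Fintype P] {G : Sh P}

/-- Not both sides of an edge are zero faces. -/
theorem not_both_zero (ho : ∀ i, G.op i ≠ i) (e : P) (h : kf G (Lf G e) = 0) : kf G (Rf G e) ≠ 0 := by
  intro h'
  cases hl : G.lf (G.nxt e) with
  | true =>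
    have := kf_zero_S ho h (G.nxt e) hl
    rw [Equiv.symm_apply_apply] at this
    exact this rfl
  | false =>
    have h1 : G.lf (G.op (G.nxt e)) = true := by rw [lf_op' ho, hl]; rfl
    have h2 := corner_S h1
    rw [G.op_op, Equiv.symm_apply_apply] at h2
    exact kf_zero_S ho h' (G.op (G.nxt e)) h1 h2

/-- The zero face on the left side of an edge is on the left side of the next edge of the Seifert circle. -/
theorem zero_L_step (ho : ∀ i, G.op i ≠ i) (e : P) (h : kf G (Lf G e) = 0) : Lf G (G.op (G.nxt e)) = Lf G e := by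
  cases hl : G.lf (G.nxt e) with
  | false =>
    have h1 : G.lf (G.op (G.nxt e)) = true := by rw [lf_op' ho, hl]; rfl
    have h2 := corner_W h1 (ho _)
    rw [G.op_op, Equiv.symm_apply_apply] at h2
    exact h2
  | true =>
    have := kf_zero_S ho h (G.nxt e) hl
    rw [Equiv.symm_apply_apply] at this
    exact absurd rfl this

theorem zero_R_step (ho : ∀ i, G.op i ≠ i) (e : P) (h : kf G (Rf G e) = 0) : Rf G (G.op (G.nxt e)) = Rf G e := by
  cases hl : G.lf (G.nxt e) with
  | true =>
    have h2 := corner_E hl (ho _)
    rw [Equiv.symm_apply_apply] at h2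
    exact h2.symm
  | false =>
    have h1 : G.lf (G.op (G.nxt e)) = true := by rw [lf_op' ho, hl]; rfl
    have h2 := corner_S h1
    rw [G.op_op, Equiv.symm_apply_apply] at h2
    exact absurd h2 (kf_zero_S ho h _ h1)

theorem same_L (ho : ∀ i, G.op i ≠ i) {e e' : P} (h : kf G (Lf G e) = 0) (hs : (seifert G).SameCycle e e') :
    Lf G e' = Lf G e := by
  obtain ⟨n, rfl⟩ := hs.exists_nat_pow_eq
  clear hs
  induction n with
  | zero => rfl
  | succ n ih =>
    rw [pow_succ', Equiv.Perm.mul_apply]
    show Lf G (G.op (G.nxt (((seifert G) ^ n) e))) = Lf G e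
    rw [zero_L_step ho _ (by rw [ih]; exact h), ih]

theorem same_R (ho : ∀ i, G.op i ≠ i) {e e' : P} (h : kf G (Rf G e) = 0) (hs : (seifert G).SameCycle e e') :
    Rf G e' = Rf G e := by
  obtain ⟨n, rfl⟩ := hs.exists_nat_pow_eq
  clear hs
  induction n with
  | zero => rfl
  | succ n ih =>
    rw [pow_succ', Equiv.Perm.mul_apply]
    show Rf G (G.op (G.nxt (((seifert G) ^ n) e))) = Rf G e
    rw [zero_R_step ho _ (by rw [ih]; exact h), ih]

/-- The face `f` is a side of the edge `e`. -/
def Side (G : Sh P) (f : Face G) (e : P) : Prop := Lf G e = f ∨ Rf G e = f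

theorem exists_side (f : Face G) : ∃ e, Side G f e :=
  face_ind (p := fun f => ∃ e, Side G f e) (fun i => ⟨i, Or.inl rfl⟩) (fun i => ⟨i, Or.inr rfl⟩) f

/-- A Seifert circle has at most one zero face. -/
theorem zero_circle (ho : ∀ i, G.op i ≠ i) {f g : Face G} (hf : kf G f = 0) (hg : kf G g = 0) {e e' : P} (he : Side G f e)
    (he' : Side G g e') (hs : (seifert G).SameCycle e e') : f = g := by
  rcases he with he | he
  · have h1 := same_L ho (e := e) (e' := e') (by rw [he]; exact hf) hs
    rcases he' with he' | he'
    · rw [← he', h1, he]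
    · exfalso
      refine not_both_zero ho e' ?_ (by rw [he']; exact hg)
      rw [h1, he]; exact hf
  · have h1 := same_R ho (e := e) (e' := e') (by rw [he]; exact hf) hs
    rcases he' with he' | he'
    · exfalso
      refine not_both_zero ho e' (by rw [he']; exact hg) ?_
      rw [h1, he]; exact hf
    · rw [← he', h1, he]

/-- The Seifert circle of a side of `f`. -/
noncomputable def circ (G : Sh P) (f : Face G) : Quotient (Equiv.Perm.SameCycle.setoid (seifert G)) :=
  Quotient.mk _ (exists_side f).choose

theorem circ_inj (ho : ∀ i, G.op i ≠ i) {f g : Face G} (hf : kf G f = 0) (hg : kf G g = 0) (h : circ G f = circ G g) : f = g :=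
  zero_circle ho hf hg (exists_side f).choose_spec (exists_side g).choose_spec (Quotient.exact h)

/-- The number of zero faces. -/
noncomputable def zeros (G : Sh P) : ℕ := Nat.card {f : Face G // kf G f = 0}

instance : Finite (Quotient (Equiv.Perm.SameCycle.setoid (seifert G))) := Quotient.finite _

theorem zeros_le (ho : ∀ i, G.op i ≠ i) : zeros G ≤ circles G := by
  refine Nat.card_le_card_of_injective (fun f : {f : Face G // kf G f = 0} => circ G f.1) ?_
  intro f g h
  exact Subtype.ext (circ_inj ho f.2 g.2 h)

/-- If there are as many zero faces as circles, every edge has a zero side. -/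
theorem special_of (ho : ∀ i, G.op i ≠ i) (h : circles G ≤ zeros G) (e : P) : kf G (Lf G e) = 0 ∨ kf G (Rf G e) = 0 := by
  have hinj : Function.Injective (fun f : {f : Face G // kf G f = 0} => circ G f.1) := by
    intro f g h
    exact Subtype.ext (circ_inj ho f.2 g.2 h)
  have hsurj : Function.Surjective (fun f : {f : Face G // kf G f = 0} => circ G f.1) := by
    refine (Nat.bijective_iff_injective_and_card _).2 ⟨hinj, le_antisymm (zeros_le ho) h⟩ |>.2
  obtain ⟨⟨f, hf⟩, h1⟩ := hsurj (Quotient.mk _ e)
  have h2 : (seifert G).SameCycle (exists_side f).choose e := Quotient.exact h1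
  rcases (exists_side f).choose_spec with h3 | h3
  · left
    rw [same_L ho (by rw [h3]; exact hf) h2, h3]
    exact hf
  · right
    rw [same_R ho (by rw [h3]; exact hf) h2, h3]
    exact hf

open Classical in
/-- The excess of the faces with `k_f ≥ 2`. -/
theorem excess (hG : Plane G) [Fintype (Face G)] :
    (∑ f : Face G, (kf G f - 1)) + 2 = zeros G := by
  have h1 := sum_kf hG.cross hG.genus
  have h2 : zeros G = ∑ f : Face G, (if kf G f = 0 then 1 else 0) := by
    rw [zeros, Nat.card_eq_fintype_card, Fintype.card_subtype, Finset.card_filter]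
  have h3 : (∑ f : Face G, (kf G f - 1)) + Fintype.card (Face G) = (∑ f : Face G, kf G f) + zeros G := by
    rw [h2, ← Finset.card_univ, Finset.card_eq_sum_ones, ← Finset.sum_add_distrib, ← Finset.sum_add_distrib]
    refine Finset.sum_congr rfl fun f _ => ?_
    split_ifs with h
    · omega
    · omega
  omega

theorem two_le_zeros (hG : Plane G) : 2 ≤ zeros G := by
  haveI : Fintype (Face G) := Fintype.ofFinite _
  have := excess hG
  omega

/-- The coherent case. -/
theorem coherent_of (hG : Plane G) (h : zeros G = 2) (f : Face G) : kf G f ≤ 1 := by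
  haveI : Fintype (Face G) := Fintype.ofFinite _
  have h1 := excess hG
  have h2 : ∑ f : Face G, (kf G f - 1) = 0 := by omega
  have h3 := Finset.sum_eq_zero_iff.1 h2 f (Finset.mem_univ f)
  omega

/-- Three zero faces: exactly one face has `k_f = 2`, the others have `k_f ≤ 1`. -/
theorem three_of (hG : Plane G) (h : zeros G = 3) : ∃ f₀ : Face G, kf G f₀ = 2 ∧ ∀ f, f ≠ f₀ → kf G f ≤ 1 := by
  classical
  haveI : Fintype (Face G) := Fintype.ofFinite _
  have h1 := excess hG
  have h2 : ∑ f : Face G, (kf G f - 1) = 1 := by omega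
  obtain ⟨f₀, -, h3⟩ := Finset.exists_ne_zero_of_sum_ne_zero (s := (Finset.univ : Finset (Face G))) (f := fun f => kf G f - 1)
    (by rw [h2]; exact one_ne_zero)
  have h4 := Finset.sum_erase_add (Finset.univ : Finset (Face G)) (fun f => kf G f - 1) (Finset.mem_univ f₀)
  rw [h2] at h4
  have h5 : ∑ f ∈ Finset.univ.erase f₀, (kf G f - 1) = 0 := by omega
  refine ⟨f₀, by omega, fun f hf => ?_⟩
  have h6 := Finset.sum_eq_zero_iff.1 h5 f (Finset.mem_erase.2 ⟨hf, Finset.mem_univ f⟩)
  omega

/-- Four circles and three zero faces: the edges without a zero side are one circle. -/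
theorem two_sided_of (hG : Plane G) (hc : circles G ≤ zeros G + 1) :
    (∀ e, kf G (Lf G e) = 0 ∨ kf G (Rf G e) = 0) ∨
      ∃ a, ∀ e, ¬ (kf G (Lf G e) = 0 ∨ kf G (Rf G e) = 0) ↔ (seifert G).SameCycle a e := by
  classical
  by_cases hsp : ∀ e, kf G (Lf G e) = 0 ∨ kf G (Rf G e) = 0
  · exact Or.inl hsp
  right
  push Not at hsp
  obtain ⟨a, ha⟩ := hsp
  have ha' : ¬ (kf G (Lf G a) = 0 ∨ kf G (Rf G a) = 0) := by
    rintro (h | h)
    · exact ha.1 h
    · exact ha.2 h
  have hno : ∀ e e', (seifert G).SameCycle e e' → (kf G (Lf G e) = 0 ∨ kf G (Rf G e) = 0) →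
      (kf G (Lf G e') = 0 ∨ kf G (Rf G e') = 0) := by
    intro e e' hs h
    rcases h with h | h
    · left; rw [same_L hG.cross h hs]; exact h
    · right; rw [same_R hG.cross h hs]; exact h
  refine ⟨a, fun e => ⟨fun he => ?_, fun hs he => ha' (hno e a hs.symm he)⟩⟩
  -- Otherwise there are two circles without a zero face.
  by_contra hcon
  let F : Option (Option {f : Face G // kf G f = 0}) → Quotient (Equiv.Perm.SameCycle.setoid (seifert G)) := fun x =>
    match x with
    | none => Quotient.mk _ a
    | some none => Quotient.mk _ e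
    | some (some f) => circ G f.1
  have hz : ∀ (f : {f : Face G // kf G f = 0}) (b : P), circ G f.1 = Quotient.mk _ b →
      (kf G (Lf G b) = 0 ∨ kf G (Rf G b) = 0) := by
    intro f b h
    have h2 : (seifert G).SameCycle (exists_side f.1).choose b := Quotient.exact h
    refine hno _ _ h2 ?_
    rcases (exists_side f.1).choose_spec with h3 | h3
    · left; rw [h3]; exact f.2
    · right; rw [h3]; exact f.2
  have hinj : Function.Injective F := by
    intro x y hxy
    match x, y, hxy with
    | none, none, _ => rfl
    | none, some none, h => exact absurd (Quotient.exact h) hcon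
    | none, some (some f), h => exact absurd (hz f a h.symm) ha'
    | some none, none, h => exact absurd (Quotient.exact h.symm) hcon
    | some none, some none, _ => rfl
    | some none, some (some f), h => exact absurd (hz f e h.symm) he
    | some (some f), none, h => exact absurd (hz f a h) ha'
    | some (some f), some none, h => exact absurd (hz f e h) he
    | some (some f), some (some g), h =>
      have : f = g := Subtype.ext (circ_inj hG.cross f.2 g.2 h)
      rw [this]
  have h1 := Nat.card_le_card_of_injective F hinj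
  have h2 : Nat.card (Option (Option {f : Face G // kf G f = 0})) = zeros G + 2 := by
    rw [Finite.card_option, Finite.card_option]
    rfl
  have h3 : Nat.card (Quotient (Equiv.Perm.SameCycle.setoid (seifert G))) = circles G := rfl
  omega

/-- **Diagrams with at most four Seifert circles.** -/
theorem cases4 (hG : Plane G) (hc : circles G ≤ 4) :
    (zeros G = 2 ∧ ∀ f, kf G f ≤ 1) ∨
      (∀ e, kf G (Lf G e) = 0 ∨ kf G (Rf G e) = 0) ∨
      (circles G = 4 ∧ zeros G = 3 ∧ (∃ f₀ : Face G, kf G f₀ = 2 ∧ ∀ f, f ≠ f₀ → kf G f ≤ 1) ∧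
        ∃ a, ∀ e, ¬ (kf G (Lf G e) = 0 ∨ kf G (Rf G e) = 0) ↔ (seifert G).SameCycle a e) := by
  have h1 := two_le_zeros hG
  have h2 := zeros_le hG.cross
  by_cases h3 : zeros G = 2
  · exact Or.inl ⟨h3, coherent_of hG h3⟩
  · right
    by_cases h4 : circles G ≤ zeros G
    · exact Or.inl (special_of hG.cross h4)
    · have h5 : zeros G = 3 := by omega
      have h6 : circles G = 4 := by omega
      rcases two_sided_of hG (by omega) with h7 | h7
      · exact Or.inl h7
      · exact Or.inr ⟨h6, h5, three_of hG h5, h7⟩

end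

end Pool.Agent.Helper2.PD
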