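import Pool.Agent.Helper2.PD.Cases

/-!
# The face with `k_f = 2`
-/

set_option autoImplicit false

namespace Pool.Agent.Helper2.PD

open Pool.Agent.Helper85.Exp Pool.Agent.Helper43.Pln

variable {P : Type}

section

variable [Fintype P] {G : Sh P}

theorem two_of_card {α : Type*} {p : α → Prop} (h : Nat.card {x // p x} = 2) :
    ∃ a b, a ≠ b ∧ p a ∧ p b ∧ ∀ c, p c → c = a ∨ c = b := by
  obtain ⟨a, b, hab, hu⟩ := Nat.card_eq_two_iff.1 h
  refine ⟨a.1, b.1, fun h => hab (Subtype.ext h), a.2, b.2, fun c hc => ?_⟩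
  have h1 : (⟨c, hc⟩ : {x // p x}) ∈ (Set.univ : Set {x // p x}) := Set.mem_univ _
  rw [← hu] at h1
  rcases h1 with h1 | h1
  · left; exact congrArg Subtype.val h1
  · right; exact congrArg Subtype.val h1

/-- The two crossings behind a face with `k_f = 2`. -/
theorem kf_two_N {f : Face G} (h : kf G f = 2) : ∃ p q, p ≠ q ∧ (G.lf p = true ∧ Rf G p = f) ∧ (G.lf q = true ∧ Rf G q = f) ∧
    ∀ r, (G.lf r = true ∧ Rf G r = f) → r = p ∨ r = q := two_of_card h

/-- The two crossings in front of a face with `k_f = 2`. -/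
theorem kf_two_S (ho : ∀ i, G.op i ≠ i) {f : Face G} (h : kf G f = 2) : ∃ p q, p ≠ q ∧
    (G.lf p = true ∧ Lf G (G.nxt.symm p) = f) ∧ (G.lf q = true ∧ Lf G (G.nxt.symm q) = f) ∧
    ∀ r, (G.lf r = true ∧ Lf G (G.nxt.symm r) = f) → r = p ∨ r = q := two_of_card ((kf_eq_S ho f).symm.trans h)

/-- Heights are constant along Seifert circles. -/
theorem kap_step (ho : ∀ i, G.op i ≠ i) {k : Face G → ℤ} (hk : ∀ i, k (Lf G i) = k (Rf G i) + 1) (e : P) :
    k (Lf G (G.op (G.nxt e))) = k (Lf G e) := by
  cases hl : G.lf (G.nxt e) with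
  | false =>
    have h1 : G.lf (G.op (G.nxt e)) = true := by rw [lf_op' ho, hl]; rfl
    have h2 := corner_W h1 (ho _)
    rw [G.op_op, Equiv.symm_apply_apply] at h2
    rw [h2]
  | true =>
    have h2 := corner_E hl (ho _)
    rw [Equiv.symm_apply_apply] at h2
    rw [hk, hk, h2]

theorem kap_same (ho : ∀ i, G.op i ≠ i) {k : Face G → ℤ} (hk : ∀ i, k (Lf G i) = k (Rf G i) + 1) {e e' : P}
    (hs : (seifert G).SameCycle e e') : k (Lf G e') = k (Lf G e) := by
  obtain ⟨n, rfl⟩ := hs.exists_nat_pow_eq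
  clear hs
  induction n with
  | zero => rfl
  | succ n ih =>
    rw [pow_succ', Equiv.Perm.mul_apply]
    show k (Lf G (G.op (G.nxt (((seifert G) ^ n) e)))) = k (Lf G e)
    rw [kap_step ho hk, ih]

/-- At a crossing the height drops by one from the left to the right strand. -/
theorem kap_cross {k : Face G → ℤ} (hk : ∀ i, k (Lf G i) = k (Rf G i) + 1) {p : P} (hp : G.lf p = true) :
    k (Lf G p) = k (Lf G (G.op p)) + 1 := by
  rw [hk p, corner_N hp]

/-- The two strands of a crossing are on different Seifert circles. -/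
theorem not_same_op (ho : ∀ i, G.op i ≠ i) {k : Face G → ℤ} (hk : ∀ i, k (Lf G i) = k (Rf G i) + 1) (p : P) :
    ¬ (seifert G).SameCycle p (G.op p) := by
  intro hs
  have h1 := kap_same ho hk hs
  cases hl : G.lf p with
  | true =>
    have h2 := kap_cross hk hl
    omega
  | false =>
    have h3 : G.lf (G.op p) = true := by rw [lf_op' ho, hl]; rfl
    have h2 := kap_cross hk h3
    rw [G.op_op] at h2
    omega

/-- A face is not on both sides of a Seifert circle. -/
theorem not_both_sides (ho : ∀ i, G.op i ≠ i) {k : Face G → ℤ} (hk : ∀ i, k (Lf G i) = k (Rf G i) + 1) {e e' : P}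
    (hs : (seifert G).SameCycle e e') : Lf G e ≠ Rf G e' := by
  intro h
  have h1 := kap_same ho hk hs
  have h2 := hk e'
  rw [h] at h1
  omega

/-- If every crossing is on the circle of `a`, the crossings behind a face are on the same side of it. -/
theorem side_N (ho : ∀ i, G.op i ≠ i) {k : Face G → ℤ} (hk : ∀ i, k (Lf G i) = k (Rf G i) + 1) {a : P}
    (ha : ∀ p, G.lf p = true → (seifert G).SameCycle a p ∨ (seifert G).SameCycle a (G.op p)) (f : Face G) :
    (∀ p, G.lf p = true → Rf G p = f → (seifert G).SameCycle a (G.op p)) ∨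
      (∀ p, G.lf p = true → Rf G p = f → (seifert G).SameCycle a p) := by
  by_cases h : ∃ p, G.lf p = true ∧ Rf G p = f ∧ (seifert G).SameCycle a (G.op p)
  · left
    obtain ⟨p, hp, hf, hs⟩ := h
    intro q hq hfq
    rcases ha q hq with h1 | h1
    · exfalso
      refine not_both_sides ho hk (hs.symm.trans h1) ?_
      rw [hfq, ← corner_N hp, hf]
    · exact h1
  · right
    push Not at h
    intro q hq hfq
    rcases ha q hq with h1 | h1
    · exact h1
    · exact absurd h1 (h q hq hfq)

/-- The same for the crossings in front of a face. -/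
theorem side_S (ho : ∀ i, G.op i ≠ i) {k : Face G → ℤ} (hk : ∀ i, k (Lf G i) = k (Rf G i) + 1) {a : P}
    (ha : ∀ p, G.lf p = true → (seifert G).SameCycle a p ∨ (seifert G).SameCycle a (G.op p)) (f : Face G) :
    (∀ p, G.lf p = true → Lf G (G.nxt.symm p) = f → (seifert G).SameCycle a (G.op p)) ∨
      (∀ p, G.lf p = true → Lf G (G.nxt.symm p) = f → (seifert G).SameCycle a p) := by
  -- the height of the face behind `p` is the height of the face in front of `p`
  have key : ∀ p, G.lf p = true → k (Lf G (G.nxt.symm p)) = k (Rf G p) := by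
    intro p hp
    have h1 := hk (G.nxt.symm p)
    have h2 := corner_E hp (ho p)
    have h3 := hk (G.op p)
    have h4 := corner_N hp
    rw [h1, h2, h4, h3]
  by_cases h : ∃ p, G.lf p = true ∧ Lf G (G.nxt.symm p) = f ∧ (seifert G).SameCycle a (G.op p)
  · left
    obtain ⟨p, hp, hf, hs⟩ := h
    intro q hq hfq
    rcases ha q hq with h1 | h1
    · exfalso
      have e1 := key p hp
      have e2 := key q hq
      rw [hf] at e1
      rw [hfq] at e2
      have e3 := kap_same ho hk (hs.symm.trans h1)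
      have e4 := hk q
      have e5 := corner_N hp
      rw [e5] at e1
      omega
    · exact h1
  · right
    push Not at h
    intro q hq hfq
    rcases ha q hq with h1 | h1
    · exact h1
    · exact absurd h1 (h q hq hfq)

/-- **The face with `k_f = 2`** if every crossing is on the circle of `a`. -/
theorem two_side (hG : Plane G) {a : P} (ha : ∀ p, G.lf p = true → (seifert G).SameCycle a p ∨ (seifert G).SameCycle a (G.op p))
    {f : Face G} (hf : kf G f = 2) : ∃ p q, p ≠ q ∧ (G.lf p = true ∧ Rf G p = f) ∧ (G.lf q = true ∧ Rf G q = f) ∧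
      (∀ r, (G.lf r = true ∧ Rf G r = f) → r = p ∨ r = q) ∧
      (((seifert G).SameCycle a (G.op p) ∧ (seifert G).SameCycle a (G.op q)) ∨
        ((seifert G).SameCycle a p ∧ (seifert G).SameCycle a q)) := by
  obtain ⟨k, hk⟩ := exists_kappa hG.conn hG.cross hG.genus
  obtain ⟨p, q, hpq, hp, hq, hr⟩ := kf_two_N hf
  refine ⟨p, q, hpq, hp, hq, hr, ?_⟩
  rcases side_N hG.cross hk ha f with h | h
  · exact Or.inl ⟨h p hp.1 hp.2, h q hq.1 hq.2⟩
  · exact Or.inr ⟨h p hp.1 hp.2, h q hq.1 hq.2⟩

end

end Pool.Agent.Helper2.PD
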