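import Pool.Agent.Helper2.PD.Cases2

/-!
# Four Seifert circles, three zero faces
-/

set_option autoImplicit false

namespace Pool.Agent.Helper2.PD

open Pool.Agent.Helper85.Exp Pool.Agent.Helper43.Pln

variable {P : Type}

section

variable [Fintype P] {G : Sh P}

/-- The zero face is on the left side: the other circles are on the right side. -/
theorem lf_of_zero_L (ho : ∀ i, G.op i ≠ i) {e : P} (h : kf G (Lf G e) = 0) : G.lf e = true := by
  cases hl : G.lf e with
  | true => rfl
  | false =>
    exfalso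
    have h1 : G.lf (G.op e) = true := by rw [lf_op' ho, hl]; rfl
    have h2 := corner_N h1
    rw [G.op_op] at h2
    exact kf_zero_N h _ h1 h2

theorem lf_of_zero_R {e : P} (h : kf G (Rf G e) = 0) : G.lf e = false := by
  cases hl : G.lf e with
  | false => rfl
  | true => exact absurd rfl (kf_zero_N h e hl)

/-- The circle of `e`, as a predicate. -/
abbrev S (G : Sh P) (e e' : P) : Prop := (seifert G).SameCycle e e'

theorem S_step (e : P) : S G e (G.op (G.nxt e)) := ⟨1, by rw [zpow_one]; rfl⟩

theorem S_pre (e : P) : S G e (G.nxt.symm (G.op e)) := by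
  have h := S_step (G := G) (G.nxt.symm (G.op e))
  rw [Equiv.apply_symm_apply, G.op_op] at h
  exact h.symm

theorem eqv_step {G : Sh P} (D : P × Bool → Prop) (hD : ∀ d, D (face G d) ↔ D d) {d d' : P × Bool}
    (h : (Quot.mk (fun d d' : P × Bool => d' = face G d) d : Face G) = Quot.mk _ d') : D d ↔ D d' := by
  set t : Face G → Prop := Quot.lift D (fun d d' hd => by
    have hd' : d' = face G d := hd
    rw [hd']
    exact (propext (hD d)).symm) with ht
  have h1 : t (Quot.mk _ d) = t (Quot.mk _ d') := by rw [h]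
  exact iff_of_eq h1

/-- If all edges of a circle leave their crossings on the left side, then its left face is a zero face. -/
theorem zero_L_of (ho : ∀ i, G.op i ≠ i) {a : P} (h : ∀ e, S G a e → G.lf e = true) : kf G (Lf G a) = 0 := by
  set D : P × Bool → Prop := fun d => d.2 = true ∧ S G a d.1 with hDd
  have hD1 : ∀ d, D d → D (face G d) := by
    rintro ⟨j, b⟩ ⟨hb, hj⟩
    have hb' : b = true := hb
    have hj' : S G a j := hj
    subst hb'
    have h1 : S G a (G.op (G.nxt j)) := hj'.trans (S_step j)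
    have h2 := h _ h1
    rw [lf_op' ho] at h2
    have h3 : G.lf (G.nxt j) = false := by simpa using h2
    have h4 : face G (j, true) = (G.op (G.nxt j), true) := by simp [face, h3]
    rw [h4]
    exact ⟨rfl, h1⟩
  have hD2 : ∀ d, D d → D (eaf G d) := by
    rintro ⟨j, b⟩ ⟨hb, hj⟩
    have hb' : b = true := hb
    have hj' : S G a j := hj
    subst hb'
    have h1 := h j hj'
    have h4 : eaf G (j, true) = (G.nxt.symm (G.op j), true) := by simp [eaf, h1]
    rw [h4]
    exact ⟨rfl, hj'.trans (S_pre j)⟩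
  have hD : ∀ d, D (face G d) ↔ D d := fun d => ⟨fun hd => by
    have := hD2 _ hd
    rwa [eaf_face ho] at this, hD1 d⟩
  rw [kf, Finite.card_eq_zero_iff]
  refine ⟨fun p => ?_⟩
  have h1 : D (p.1, false) := (eqv_step D hD (d := (p.1, false)) (d' := (a, true)) p.2.2).2 ⟨rfl, Equiv.Perm.SameCycle.refl _ _⟩
  exact absurd h1.1 (by simp)

/-- If all edges of a circle leave their crossings on the right side, then its right face is a zero face. -/
theorem zero_R_of (ho : ∀ i, G.op i ≠ i) {a : P} (h : ∀ e, S G a e → G.lf e = false) : kf G (Rf G a) = 0 := by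
  set D : P × Bool → Prop := fun d => d.2 = false ∧ S G a d.1 with hDd
  have hD2 : ∀ d, D d → D (eaf G d) := by
    rintro ⟨j, b⟩ ⟨hb, hj⟩
    have hb' : b = false := hb
    have hj' : S G a j := hj
    subst hb'
    have h1 : S G a (G.op (G.nxt j)) := hj'.trans (S_step j)
    have h2 := h _ h1
    rw [lf_op' ho] at h2
    have h3 : G.lf (G.nxt j) = true := by simpa using h2
    have h4 : eaf G (j, false) = (G.op (G.nxt j), false) := by simp [eaf, h3]
    rw [h4]
    exact ⟨rfl, h1⟩
  have hD1 : ∀ d, D d → D (face G d) := by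
    rintro ⟨j, b⟩ ⟨hb, hj⟩
    have hb' : b = false := hb
    have hj' : S G a j := hj
    subst hb'
    have h1 := h j hj'
    have h4 : face G (j, false) = (G.nxt.symm (G.op j), false) := by simp [face, h1]
    rw [h4]
    exact ⟨rfl, hj'.trans (S_pre j)⟩
  have hD : ∀ d, D (face G d) ↔ D d := fun d => ⟨fun hd => by
    have := hD2 _ hd
    rwa [eaf_face ho] at this, hD1 d⟩
  rw [kf_eq_S ho, Finite.card_eq_zero_iff]
  refine ⟨fun p => ?_⟩
  have h1 : D (G.nxt.symm p.1, true) :=
    (eqv_step D hD (d := (G.nxt.symm p.1, true)) (d' := (a, false)) p.2.2).2 ⟨rfl, Equiv.Perm.SameCycle.refl _ _⟩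
  exact absurd h1.1 (by simp)

/-- A type with four elements. -/
theorem fourth {α : Type*} [Finite α] (h : Nat.card α = 4) {a b c : α} (hab : a ≠ b) (hac : a ≠ c) (hbc : b ≠ c) :
    ∃ d, d ≠ a ∧ d ≠ b ∧ d ≠ c ∧ ∀ y, y = a ∨ y = b ∨ y = c ∨ y = d := by
  classical
  haveI : Fintype α := Fintype.ofFinite α
  rw [Nat.card_eq_fintype_card] at h
  have h1 : ((((Finset.univ : Finset α).erase a).erase b).erase c).card = 1 := by
    rw [Finset.card_erase_of_mem, Finset.card_erase_of_mem, Finset.card_erase_of_mem (Finset.mem_univ a), Finset.card_univ, h]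
    · exact Finset.mem_erase.2 ⟨hab.symm, Finset.mem_univ b⟩
    · exact Finset.mem_erase.2 ⟨hbc.symm, Finset.mem_erase.2 ⟨hac.symm, Finset.mem_univ c⟩⟩
  obtain ⟨d, hd⟩ := Finset.card_eq_one.1 h1
  have h2 : d ∈ (((Finset.univ : Finset α).erase a).erase b).erase c := by rw [hd]; exact Finset.mem_singleton_self d
  rw [Finset.mem_erase, Finset.mem_erase, Finset.mem_erase] at h2
  refine ⟨d, h2.2.2.1, h2.2.1, h2.1, fun y => ?_⟩
  by_cases h3 : y = a
  · exact Or.inl h3
  by_cases h4 : y = b
  · exact Or.inr (Or.inl h4)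
  by_cases h5 : y = c
  · exact Or.inr (Or.inr (Or.inl h5))
  have h6 : y ∈ (((Finset.univ : Finset α).erase a).erase b).erase c :=
    Finset.mem_erase.2 ⟨h5, Finset.mem_erase.2 ⟨h4, Finset.mem_erase.2 ⟨h3, Finset.mem_univ y⟩⟩⟩
  rw [hd, Finset.mem_singleton] at h6
  exact Or.inr (Or.inr (Or.inr h6))

/-- Four circles: the fourth one. -/
theorem fourth_circle (h : circles G = 4) {a b c : P} (hab : ¬ S G a b) (hac : ¬ S G a c) (hbc : ¬ S G b c) :
    ∃ d, ¬ S G d a ∧ ¬ S G d b ∧ ¬ S G d c ∧ ∀ y, S G a y ∨ S G b y ∨ S G c y ∨ S G d y := by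
  have key : ∀ x y : P, (Quotient.mk (Equiv.Perm.SameCycle.setoid (seifert G)) x = Quotient.mk _ y) ↔ S G x y := fun x y =>
    Quotient.eq (r := Equiv.Perm.SameCycle.setoid (seifert G))
  obtain ⟨d, h1, h2, h3, h4⟩ := fourth (α := Quotient (Equiv.Perm.SameCycle.setoid (seifert G))) h
    (a := Quotient.mk _ a) (b := Quotient.mk _ b) (c := Quotient.mk _ c) (fun h => hab ((key _ _).1 h)) (fun h => hac ((key _ _).1 h))
    (fun h => hbc ((key _ _).1 h))
  induction d using Quotient.ind with
  | _ d =>
    refine ⟨d, fun h => h1 ((key _ _).2 h), fun h => h2 ((key _ _).2 h), fun h => h3 ((key _ _).2 h), fun y => ?_⟩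
    rcases h4 (Quotient.mk _ y) with h | h | h | h
    · exact Or.inl ((key _ _).1 h).symm
    · exact Or.inr (Or.inl ((key _ _).1 h).symm)
    · exact Or.inr (Or.inr (Or.inl ((key _ _).1 h).symm))
    · exact Or.inr (Or.inr (Or.inr ((key _ _).1 h).symm))

/-- The left side of the circle of `e` is a zero face. -/
def ZL (G : Sh P) (e : P) : Prop := kf G (Lf G e) = 0

/-- The right side of the circle of `e` is a zero face. -/
def ZR (G : Sh P) (e : P) : Prop := kf G (Rf G e) = 0

theorem ZL.same (ho : ∀ i, G.op i ≠ i) {e e' : P} (h : ZL G e) (hs : S G e e') : ZL G e' := by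
  unfold ZL at *
  rw [same_L ho h hs]
  exact h

theorem ZR.same (ho : ∀ i, G.op i ≠ i) {e e' : P} (h : ZR G e) (hs : S G e e') : ZR G e' := by
  unfold ZR at *
  rw [same_R ho h hs]
  exact h

theorem ZL.not (ho : ∀ i, G.op i ≠ i) {e : P} (h : ZL G e) (h' : ZR G e) : False := not_both_zero ho e h h'

/-- **Four Seifert circles and three zero faces.** `a` is on the circle with other circles on both sides. -/
theorem case3 (hG : Plane G) (h4 : circles G = 4) {a : P} (ha : ∀ e, ¬ (kf G (Lf G e) = 0 ∨ kf G (Rf G e) = 0) ↔ S G a e) :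
    (∃ b c d, ¬ S G b c ∧ ZL G b ∧ ZL G c ∧ ZR G d ∧ ¬ S G a b ∧ ¬ S G a c ∧ ¬ S G a d ∧
      (∀ p, G.lf p = true → ((S G b p ∨ S G c p) ∧ S G a (G.op p)) ∨ (S G a p ∧ S G d (G.op p)))) ∨
    (∃ b c d, ¬ S G b c ∧ ZR G b ∧ ZR G c ∧ ZL G d ∧ ¬ S G a b ∧ ¬ S G a c ∧ ¬ S G a d ∧
      (∀ p, G.lf p = true → (S G d p ∧ S G a (G.op p)) ∨ (S G a p ∧ (S G b (G.op p) ∨ S G c (G.op p))))) ∨
    (∃ x q u, ZL G x ∧ ZR G q ∧ ZR G u ∧ ¬ S G q u ∧ ¬ S G a x ∧ ¬ S G a q ∧ ¬ S G a u ∧
      (∃ p, G.lf p = true ∧ S G x p ∧ S G a (G.op p)) ∧ (∃ p, G.lf p = true ∧ S G a p ∧ S G u (G.op p)) ∧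
      (∃ p, G.lf p = true ∧ S G x p ∧ S G q (G.op p)) ∧
      (∀ p, G.lf p = true → (S G x p ∧ S G a (G.op p)) ∨ (S G a p ∧ S G u (G.op p)) ∨ (S G x p ∧ S G q (G.op p)))) ∨
    (∃ x q u, ZL G x ∧ ZR G q ∧ ZL G u ∧ ¬ S G x u ∧ ¬ S G a x ∧ ¬ S G a q ∧ ¬ S G a u ∧
      (∃ p, G.lf p = true ∧ S G u p ∧ S G a (G.op p)) ∧ (∃ p, G.lf p = true ∧ S G a p ∧ S G q (G.op p)) ∧
      (∃ p, G.lf p = true ∧ S G x p ∧ S G q (G.op p)) ∧
      (∀ p, G.lf p = true → (S G u p ∧ S G a (G.op p)) ∨ (S G a p ∧ S G q (G.op p)) ∨ (S G x p ∧ S G q (G.op p)))) := by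
  have ho := hG.cross
  obtain ⟨k, hk⟩ := exists_kappa hG.conn hG.cross hG.genus
  have hz : ∀ e, ¬ S G a e → ZL G e ∨ ZR G e := by
    intro e he
    by_contra hcon
    exact he ((ha e).1 hcon)
  have hLt : ∀ e, G.lf e = true → ¬ S G a e → ZL G e := by
    intro e hl he
    rcases hz e he with h | h
    · exact h
    · exact absurd (lf_of_zero_R h) (by rw [hl]; simp)
  have hRt : ∀ e, G.lf e = false → ¬ S G a e → ZR G e := by
    intro e hl he
    rcases hz e he with h | h
    · exact absurd (lf_of_zero_L ho h) (by rw [hl]; simp)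
    · exact h
  have hopl : ∀ p, G.lf p = true → G.lf (G.op p) = false := fun p hp => by rw [lf_op' ho, hp]; rfl
  have hoplf : ∀ p, G.lf p = false → G.lf (G.op p) = true := fun p hp => by rw [lf_op' ho, hp]; rfl
  have haa : ¬ (kf G (Lf G a) = 0 ∨ kf G (Rf G a) = 0) := (ha a).2 (Equiv.Perm.SameCycle.refl _ _)
  have hne : ∀ p, ¬ S G p (G.op p) := not_same_op ho hk
  have hht : ∀ e e', S G e e' → k (Lf G e') = k (Lf G e) := fun e e' h => kap_same ho hk h
  -- the circle of `a` has crossings on both sides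
  obtain ⟨e1, he1, hl1⟩ : ∃ e, S G a e ∧ G.lf e = false := by
    by_contra hcon
    push Not at hcon
    refine haa (Or.inl (zero_L_of ho fun e he => ?_))
    have := hcon e he
    simpa using this
  obtain ⟨e2, he2, hl2⟩ : ∃ e, S G a e ∧ G.lf e = true := by
    by_contra hcon
    push Not at hcon
    refine haa (Or.inr (zero_R_of ho fun e he => ?_))
    have := hcon e he
    simpa using this
  have hx1 : ¬ S G a (G.op e1) := fun h => hne e1 (he1.symm.trans h)
  have hy1 : ¬ S G a (G.op e2) := fun h => hne e2 (he2.symm.trans h)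
  have hX : ZL G (G.op e1) := hLt _ (hoplf _ hl1) hx1
  have hY : ZR G (G.op e2) := hRt _ (hopl _ hl2) hy1
  have hkX : k (Lf G (G.op e1)) = k (Lf G a) + 1 := by
    have := kap_cross hk (hoplf _ hl1)
    rw [G.op_op, hht a e1 he1] at this
    exact this
  have hkY : k (Lf G (G.op e2)) = k (Lf G a) - 1 := by
    have := kap_cross hk hl2
    rw [hht a e2 he2] at this
    omega
  have hXY : ¬ S G (G.op e1) (G.op e2) := by
    intro h
    have := hht _ _ h
    omega
  by_cases hT : ∀ p, G.lf p = true → S G a p ∨ S G a (G.op p)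
  · -- the T case
    obtain ⟨u, hua, huX, huY, hall⟩ := fourth_circle h4 hx1 hy1 hXY
    have hau : ¬ S G a u := fun h => hua h.symm
    rcases hz u hau with hu | hu
    · left
      refine ⟨G.op e1, u, G.op e2, fun h => huX h.symm, hX, hu, hY, hx1, hau, hy1, fun p hp => ?_⟩
      rcases hT p hp with h | h
      · right
        refine ⟨h, ?_⟩
        have h1 : ¬ S G a (G.op p) := fun h' => hne p (h.symm.trans h')
        have h2 : ZR G (G.op p) := hRt _ (hopl p hp) h1
        rcases hall (G.op p) with h3 | h3 | h3 | h3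
        · exact absurd h3 h1
        · exact (ZL.not ho (hX.same ho h3) h2).elim
        · exact h3
        · exact (ZL.not ho (hu.same ho h3) h2).elim
      · left
        refine ⟨?_, h⟩
        have h1 : ¬ S G a p := fun h' => hne p (h'.symm.trans h)
        have h2 : ZL G p := hLt _ hp h1
        rcases hall p with h3 | h3 | h3 | h3
        · exact absurd h3 h1
        · exact Or.inl h3
        · exact (ZL.not ho h2 (hY.same ho h3)).elim
        · exact Or.inr h3
    · right; left
      refine ⟨G.op e2, u, G.op e1, fun h => huY h.symm, hY, hu, hX, hy1, hau, hx1, fun p hp => ?_⟩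
      rcases hT p hp with h | h
      · right
        refine ⟨h, ?_⟩
        have h1 : ¬ S G a (G.op p) := fun h' => hne p (h.symm.trans h')
        have h2 : ZR G (G.op p) := hRt _ (hopl p hp) h1
        rcases hall (G.op p) with h3 | h3 | h3 | h3
        · exact absurd h3 h1
        · exact (ZL.not ho (hX.same ho h3) h2).elim
        · exact Or.inl h3
        · exact Or.inr h3
      · left
        refine ⟨?_, h⟩
        have h1 : ¬ S G a p := fun h' => hne p (h'.symm.trans h)
        have h2 : ZL G p := hLt _ hp h1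
        rcases hall p with h3 | h3 | h3 | h3
        · exact absurd h3 h1
        · exact h3
        · exact (ZL.not ho h2 (hY.same ho h3)).elim
        · exact (ZL.not ho h2 (hu.same ho h3)).elim
  · -- a crossing of two circles with a zero face
    right; right
    push Not at hT
    obtain ⟨p0, hp0, hp1, hp2⟩ := hT
    have hP : ZL G p0 := hLt _ hp0 hp1
    have hQ : ZR G (G.op p0) := hRt _ (hopl _ hp0) hp2
    have hkPQ : k (Lf G p0) = k (Lf G (G.op p0)) + 1 := kap_cross hk hp0
    obtain ⟨u, hua, huP, huQ, hall⟩ := fourth_circle h4 hp1 hp2 (hne p0)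
    have hau : ¬ S G a u := fun h => hua h.symm
    -- X is P or U, Y is Q or U
    have hXc : S G p0 (G.op e1) ∨ S G u (G.op e1) := by
      rcases hall (G.op e1) with h3 | h3 | h3 | h3
      · exact absurd h3 hx1
      · exact Or.inl h3
      · exact (ZL.not ho hX (hQ.same ho h3)).elim
      · exact Or.inr h3
    have hYc : S G (G.op p0) (G.op e2) ∨ S G u (G.op e2) := by
      rcases hall (G.op e2) with h3 | h3 | h3 | h3
      · exact absurd h3 hy1
      · exact (ZL.not ho (hP.same ho h3) hY).elim
      · exact Or.inl h3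
      · exact Or.inr h3
    rcases hXc with hX' | hX'
    · have hkP : k (Lf G p0) = k (Lf G a) + 1 := by
        have := hht _ _ hX'
        omega
      rcases hYc with hY' | hY'
      · exfalso
        have := hht _ _ hY'
        omega
      · left
        have hU : ZR G u := hY.same ho hY'.symm
        have hkU : k (Lf G u) = k (Lf G a) - 1 := by
          have := hht _ _ hY'
          omega
        refine ⟨p0, G.op p0, u, hP, hQ, hU, fun h => huQ h.symm, hp1, hp2, hau,
          ⟨G.op e1, hoplf _ hl1, hX', by rw [G.op_op]; exact he1⟩, ⟨e2, hl2, he2, hY'⟩,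
          ⟨p0, hp0, Equiv.Perm.SameCycle.refl _ _, Equiv.Perm.SameCycle.refl _ _⟩, fun p hp => ?_⟩
        have hkp := kap_cross hk hp
        rcases hall p with h3 | h3 | h3 | h3
        · -- left strand on `a`
          have e3 := hht _ _ h3
          rcases hall (G.op p) with h5 | h5 | h5 | h5
          · exact absurd (h3.symm.trans h5) (hne p)
          · have := hht _ _ h5
            omega
          · have := hht _ _ h5
            omega
          · exact Or.inr (Or.inl ⟨h3, h5⟩)
        · have e3 := hht _ _ h3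
          rcases hall (G.op p) with h5 | h5 | h5 | h5
          · exact Or.inl ⟨h3, h5⟩
          · exact absurd (h3.symm.trans h5) (hne p)
          · exact Or.inr (Or.inr ⟨h3, h5⟩)
          · have := hht _ _ h5
            omega
        · exact absurd (lf_of_zero_R (hQ.same ho h3)) (by rw [hp]; simp)
        · exact absurd (lf_of_zero_R (hU.same ho h3)) (by rw [hp]; simp)
    · have hU : ZL G u := hX.same ho hX'.symm
      have hkU : k (Lf G u) = k (Lf G a) + 1 := by
        have := hht _ _ hX'
        omega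
      rcases hYc with hY' | hY'
      · right
        have hkQ : k (Lf G (G.op p0)) = k (Lf G a) - 1 := by
          have := hht _ _ hY'
          omega
        refine ⟨p0, G.op p0, u, hP, hQ, hU, fun h => huP h.symm, hp1, hp2, hau,
          ⟨G.op e1, hoplf _ hl1, hX', by rw [G.op_op]; exact he1⟩, ⟨e2, hl2, he2, hY'⟩,
          ⟨p0, hp0, Equiv.Perm.SameCycle.refl _ _, Equiv.Perm.SameCycle.refl _ _⟩, fun p hp => ?_⟩
        have hkp := kap_cross hk hp
        have hlop := hopl p hp
        rcases hall (G.op p) with h5 | h5 | h5 | h5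
        · have e5 := hht _ _ h5
          rcases hall p with h3 | h3 | h3 | h3
          · exact absurd (h3.symm.trans h5) (hne p)
          · have := hht _ _ h3
            omega
          · exact absurd (lf_of_zero_R (hQ.same ho h3)) (by rw [hp]; simp)
          · exact Or.inl ⟨h3, h5⟩
        · exact absurd (lf_of_zero_L ho (hP.same ho h5)) (by rw [hlop]; simp)
        · have e5 := hht _ _ h5
          rcases hall p with h3 | h3 | h3 | h3
          · exact Or.inr (Or.inl ⟨h3, h5⟩)
          · exact Or.inr (Or.inr ⟨h3, h5⟩)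
          · exact absurd (lf_of_zero_R (hQ.same ho h3)) (by rw [hp]; simp)
          · have := hht _ _ h3
            omega
        · exact absurd (lf_of_zero_L ho (hU.same ho h5)) (by rw [hlop]; simp)
      · exact (ZL.not ho hU (hY.same ho hY'.symm)).elim

end

end Pool.Agent.Helper2.PD
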